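import Mathlib

/-!
A primitive recursive construction of almost disjoint sets, indexed by guesses about totality.
-/

namespace Pool.Agent.Q205.MAD

open Nat.Partrec (Code)
open Nat.Partrec.Code Denumerable Encodable

/-- An entry of a table: the values found so far (newest first) and a threshold. -/
abbrev Entry : Type := List ℕ × ℕ

/-- Lookup. -/
def look (T : List Entry) (j : ℕ) : Entry := T.getD j ([], 0)

/-- The condition of `r` being a new value for the entry `μ` at stage `t`. -/
def Cond (s : List ℕ) (t : ℕ) (T : List Entry) (μ r : ℕ) : Prop :=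
  (look T μ).2 ≤ r ∧ evaln t (ofNat Code μ) r = some 1 ∧
  ∀ j, j < μ → (s.getD j 0 = 0 → (∃ x ∈ (look T j).1, r < x) ∧ ¬ ∃ x ∈ (look T j).1, x = r) ∧
    (s.getD j 0 ≠ 0 → (look T j).1.length + 1 = s.getD j 0)

open Classical in
/-- The candidate for a new value. -/
noncomputable def cand (s : List ℕ) (t : ℕ) (T : List Entry) (μ : ℕ) : ℕ :=
  Nat.findGreatest (Cond s t T μ) t

open Classical in
/-- The new value of an entry. -/
noncomputable def upd (s : List ℕ) (t : ℕ) (T : List Entry) (μ : ℕ) : Entry :=
  if Cond s t T μ (cand s t T μ) then (cand s t T μ :: (look T μ).1, t + 1) else look T μ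

/-- The table for the segments of `s` at stage `t`. -/
noncomputable def tb (s : List ℕ) : ℕ → List Entry
  | 0 => (List.range (s.length + 1)).map fun μ => ([], encode (s.take μ) + 1)
  | t + 1 => (List.range (s.length + 1)).map (upd s t (tb s t))

/-- The entry of `s` at stage `t`. -/
noncomputable def st (s : List ℕ) (t : ℕ) : Entry := look (tb s t) s.length

/-! ### primitive recursiveness -/

section primrec

open Primrec

theorem all_lt {α β : Type*} [Primcodable α] [Primcodable β] {R : ℕ → β → Prop}
    (hR : PrimrecRel R) {f : α → ℕ} {g : α → β} (hf : Primrec f) (hg : Primrec g) :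
    PrimrecPred fun a => ∀ j, j < f a → R j (g a) :=
  (hR.forall_mem_list.comp (list_range.comp hf) hg).of_eq (by simp)

theorem ex_lt {α β : Type*} [Primcodable α] [Primcodable β] {R : ℕ → β → Prop}
    (hR : PrimrecRel R) {f : α → ℕ} {g : α → β} (hf : Primrec f) (hg : Primrec g) :
    PrimrecPred fun a => ∃ j, j < f a ∧ R j (g a) :=
  (hR.exists_mem_list.comp (list_range.comp hf) hg).of_eq (by simp)

theorem look_primrec : Primrec₂ look := list_getD _

theorem imp_primrec {α : Type*} [Primcodable α] {p q : α → Prop} (hp : PrimrecPred p)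
    (hq : PrimrecPred q) : PrimrecPred fun a => p a → q a :=
  (hp.not.or hq).of_eq fun a => by tauto

theorem cond_primrec : PrimrecPred fun x : ((List ℕ × ℕ) × List Entry × ℕ) × ℕ =>
    Cond x.1.1.1 x.1.1.2 x.1.2.1 x.1.2.2 x.2 := by
  unfold Cond
  have hs : Primrec fun x : ((List ℕ × ℕ) × List Entry × ℕ) × ℕ => x.1.1.1 :=
    Primrec.fst.comp (Primrec.fst.comp Primrec.fst)
  have ht : Primrec fun x : ((List ℕ × ℕ) × List Entry × ℕ) × ℕ => x.1.1.2 :=
    Primrec.snd.comp (Primrec.fst.comp Primrec.fst)
  have hT : Primrec fun x : ((List ℕ × ℕ) × List Entry × ℕ) × ℕ => x.1.2.1 :=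
    Primrec.fst.comp (Primrec.snd.comp Primrec.fst)
  have hm : Primrec fun x : ((List ℕ × ℕ) × List Entry × ℕ) × ℕ => x.1.2.2 :=
    Primrec.snd.comp (Primrec.snd.comp Primrec.fst)
  have hr : Primrec fun x : ((List ℕ × ℕ) × List Entry × ℕ) × ℕ => x.2 := Primrec.snd
  refine PrimrecPred.and ?_ (PrimrecPred.and ?_ ?_)
  · exact nat_le.comp (Primrec.snd.comp (look_primrec.comp hT hm)) hr
  · refine Primrec.eq.comp (primrec_evaln.comp ((ht.pair ?_).pair hr)) (Primrec.const (some 1))
    exact (Primrec.ofNat Code).comp hm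
  · -- the quantifier
    have hR : PrimrecRel fun (j : ℕ) (x : ((List ℕ × ℕ) × List Entry × ℕ) × ℕ) =>
        (x.1.1.1.getD j 0 = 0 → (∃ y ∈ (look x.1.2.1 j).1, x.2 < y) ∧
          ¬ ∃ y ∈ (look x.1.2.1 j).1, y = x.2) ∧
        (x.1.1.1.getD j 0 ≠ 0 → (look x.1.2.1 j).1.length + 1 = x.1.1.1.getD j 0) := by
      have hj : Primrec fun y : ℕ × ((List ℕ × ℕ) × List Entry × ℕ) × ℕ => y.1 := Primrec.fst
      have hx : Primrec fun y : ℕ × ((List ℕ × ℕ) × List Entry × ℕ) × ℕ => y.2 := Primrec.snd
      have hg : Primrec fun y : ℕ × ((List ℕ × ℕ) × List Entry × ℕ) × ℕ =>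
          y.2.1.1.1.getD y.1 0 := (list_getD 0).comp (hs.comp hx) hj
      have hL : Primrec fun y : ℕ × ((List ℕ × ℕ) × List Entry × ℕ) × ℕ =>
          (look y.2.1.2.1 y.1).1 := Primrec.fst.comp (look_primrec.comp (hT.comp hx) hj)
      have hrr : Primrec fun y : ℕ × ((List ℕ × ℕ) × List Entry × ℕ) × ℕ => y.2.2 := hr.comp hx
      have hlt : PrimrecRel fun (a b : ℕ) => b < a := nat_lt.swap
      refine PrimrecPred.and (imp_primrec (Primrec.eq.comp hg (Primrec.const 0)) ?_)
        (imp_primrec (Primrec.eq.comp hg (Primrec.const 0)).not ?_)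
      · refine PrimrecPred.and ?_ (PrimrecPred.not ?_)
        · exact hlt.exists_mem_list.comp hL hrr
        · exact (Primrec.eq (α := ℕ)).exists_mem_list.comp hL hrr
      · exact Primrec.eq.comp (Primrec.succ.comp (list_length.comp hL)) hg
    exact all_lt hR hm Primrec.id

theorem cand_primrec : Primrec fun x : (List ℕ × ℕ) × List Entry × ℕ =>
    cand x.1.1 x.1.2 x.2.1 x.2.2 := by
  classical
  unfold cand
  exact nat_findGreatest (f := fun x : (List ℕ × ℕ) × List Entry × ℕ => x.1.2)
    (p := fun x r => Cond x.1.1 x.1.2 x.2.1 x.2.2 r) (Primrec.snd.comp Primrec.fst) cond_primrec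

theorem upd_primrec : Primrec fun x : (List ℕ × ℕ) × List Entry × ℕ =>
    upd x.1.1 x.1.2 x.2.1 x.2.2 := by
  classical
  unfold upd
  have hl : Primrec fun x : (List ℕ × ℕ) × List Entry × ℕ => look x.2.1 x.2.2 :=
    look_primrec.comp (Primrec.fst.comp Primrec.snd) (Primrec.snd.comp Primrec.snd)
  refine Primrec.ite (cond_primrec.comp (Primrec.id.pair cand_primrec)) ?_ hl
  exact (list_cons.comp cand_primrec (Primrec.fst.comp hl)).pair
    (Primrec.succ.comp (Primrec.snd.comp Primrec.fst))

theorem tb_primrec : Primrec₂ tb := by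
  have hlen : Primrec fun s : List ℕ => List.range (s.length + 1) :=
    list_range.comp (Primrec.succ.comp list_length)
  have h0 : Primrec fun s : List ℕ => (List.range (s.length + 1)).map fun μ =>
      (([], encode (s.take μ) + 1) : Entry) := by
    refine list_map hlen ?_
    exact ((Primrec.const []).pair (Primrec.succ.comp (Primrec.encode.comp
      (list_take.comp Primrec.snd Primrec.fst)))).to₂
  have h1 : Primrec₂ fun (s : List ℕ) (p : ℕ × List Entry) =>
      (List.range (s.length + 1)).map (upd s p.1 p.2) := by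
    refine list_map (f := fun q : List ℕ × ℕ × List Entry => List.range (q.1.length + 1))
      (g := fun q μ => upd q.1 q.2.1 q.2.2 μ) (hlen.comp Primrec.fst) ?_
    exact (upd_primrec.comp (((Primrec.fst.comp Primrec.fst).pair (Primrec.fst.comp
      (Primrec.snd.comp Primrec.fst))).pair ((Primrec.snd.comp
        (Primrec.snd.comp Primrec.fst)).pair Primrec.snd))).to₂
  refine Primrec₂.of_eq (Primrec.nat_rec h0 h1) fun s t => ?_
  induction t with
  | zero => rfl
  | succ t ih =>
    rw [tb, ← ih]

theorem st_primrec : Primrec₂ st :=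
  look_primrec.comp tb_primrec (list_length.comp Primrec.fst)

end primrec

/-! ### coherence -/

theorem tb_length (s : List ℕ) (t : ℕ) : (tb s t).length = s.length + 1 := by
  cases t <;> simp [tb]

theorem look_map {f : ℕ → Entry} {n μ : ℕ} (h : μ < n) :
    look ((List.range n).map f) μ = f μ := by
  unfold look
  rw [List.getD_eq_getElem?_getD, List.getElem?_map, List.getElem?_range h]
  rfl

theorem cond_congr {s s' : List ℕ} {t : ℕ} {T T' : List Entry} {μ r : ℕ}
    (hT : ∀ j, j ≤ μ → look T j = look T' j) (hs : ∀ j, j < μ → s.getD j 0 = s'.getD j 0) :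
    Cond s t T μ r ↔ Cond s' t T' μ r := by
  unfold Cond
  rw [hT μ le_rfl]
  refine and_congr Iff.rfl (and_congr Iff.rfl (forall_congr' fun j => forall_congr' fun hj => ?_))
  rw [hT j hj.le, hs j hj]

theorem upd_congr {s s' : List ℕ} {t : ℕ} {T T' : List Entry} {μ : ℕ}
    (hT : ∀ j, j ≤ μ → look T j = look T' j) (hs : ∀ j, j < μ → s.getD j 0 = s'.getD j 0) :
    upd s t T μ = upd s' t T' μ := by
  have h1 : Cond s t T μ = Cond s' t T' μ := by
    funext r
    exact propext (cond_congr hT hs)
  unfold upd cand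
  rw [h1, hT μ le_rfl]

theorem look_tb (t : ℕ) : ∀ (s : List ℕ) (μ : ℕ), μ ≤ s.length →
    look (tb s t) μ = st (s.take μ) t := by
  induction t with
  | zero =>
    intro s μ h
    unfold st
    have hl : (s.take μ).length = μ := by simp [h]
    rw [hl, tb, tb, look_map (by omega), look_map (by omega)]
    rw [List.take_take, min_self]
  | succ t ih =>
    intro s μ h
    unfold st
    have hl : (s.take μ).length = μ := by simp [h]
    rw [hl, tb, tb, look_map (by omega), look_map (by omega)]
    refine upd_congr ?_ ?_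
    · intro j hj
      rw [ih s j (by omega), ih (s.take μ) j (by omega), List.take_take, min_eq_left hj]
    · intro j hj
      rw [List.getD_eq_getElem?_getD, List.getD_eq_getElem?_getD, List.getElem?_take_of_lt hj]

/-- The condition in terms of the entries of the segments. -/
def C (s : List ℕ) (t r : ℕ) : Prop :=
  (st s t).2 ≤ r ∧ evaln t (ofNat Code s.length) r = some 1 ∧
  ∀ j, j < s.length → (s.getD j 0 = 0 → (∃ x ∈ (st (s.take j) t).1, r < x) ∧
    r ∉ (st (s.take j) t).1) ∧
    (s.getD j 0 ≠ 0 → (st (s.take j) t).1.length + 1 = s.getD j 0)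

theorem cond_iff (s : List ℕ) (t r : ℕ) : Cond s t (tb s t) s.length r ↔ C s t r := by
  unfold Cond C
  rw [look_tb t s s.length le_rfl, List.take_length]
  refine and_congr Iff.rfl (and_congr Iff.rfl (forall_congr' fun j => forall_congr' fun hj => ?_))
  rw [look_tb t s j hj.le]
  simp

theorem st_zero (s : List ℕ) : st s 0 = ([], encode s + 1) := by
  unfold st
  rw [tb, look_map (by omega), List.take_length]

theorem st_succ (s : List ℕ) (t : ℕ) : (∃ r, r ≤ t ∧ C s t r ∧
    st s (t + 1) = (r :: (st s t).1, t + 1)) ∨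
    ((∀ r, r ≤ t → 0 < r → ¬ C s t r) ∧ st s (t + 1) = st s t) := by
  classical
  have h1 : st s (t + 1) = upd s t (tb s t) s.length := by
    unfold st
    rw [tb, look_map (by omega)]
  have h2 : look (tb s t) s.length = st s t := rfl
  by_cases h : Cond s t (tb s t) s.length (cand s t (tb s t) s.length)
  · left
    refine ⟨cand s t (tb s t) s.length, ?_, (cond_iff _ _ _).1 h, ?_⟩
    · exact Nat.findGreatest_le _
    · rw [h1]
      unfold upd
      rw [if_pos h, h2]
  · right
    refine ⟨fun r hr hpos hC => ?_, ?_⟩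
    · apply h
      unfold cand
      exact Nat.findGreatest_spec (P := Cond s t (tb s t) s.length) hr ((cond_iff _ _ _).2 hC)
    · rw [h1]
      unfold upd
      rw [if_neg h, h2]

end Pool.Agent.Q205.MAD
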