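import Pool.Agent.Q205.MAD.Constr

/-!
Properties of the construction, and the `Π⁰₁` class.
-/

namespace Pool.Agent.Q205.MAD

open Nat.Partrec (Code)
open Nat.Partrec.Code Denumerable Encodable

/-! ### definitions -/

/-- The initial segment of length `n`. -/
def seg (X : ℕ → Bool) (n : ℕ) : List Bool := (List.range n).map X

/-- A `Π⁰₁` class: the set of the infinite paths through a computable binary tree. -/
def IsPi01Class (P : Set (ℕ → Bool)) : Prop :=
  ∃ T : List Bool → Prop, ComputablePred T ∧ (∀ σ τ, T (σ ++ τ) → T σ) ∧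
    P = {X | ∀ n, T (seg X n)}

/-- `X` and `Y` are almost disjoint. -/
def AlmostDisjoint (X Y : ℕ → Bool) : Prop := {n | X n = true ∧ Y n = true}.Finite

/-! ### the lists of values -/

/-- The values found by stage `t`. -/
noncomputable def L (s : List ℕ) (t : ℕ) : List ℕ := (st s t).1

/-- The threshold at stage `t`. -/
noncomputable def a (s : List ℕ) (t : ℕ) : ℕ := (st s t).2

theorem step (s : List ℕ) (t : ℕ) :
    (∃ r, r ≤ t ∧ C s t r ∧ L s (t + 1) = r :: L s t ∧ a s (t + 1) = t + 1) ∨
    ((∀ r, r ≤ t → 0 < r → ¬ C s t r) ∧ L s (t + 1) = L s t ∧ a s (t + 1) = a s t) := by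
  rcases st_succ s t with ⟨r, h1, h2, h3⟩ | ⟨h1, h2⟩
  · exact Or.inl ⟨r, h1, h2, by unfold L; rw [h3], by unfold a; rw [h3]⟩
  · exact Or.inr ⟨h1, by unfold L; rw [h2], by unfold a; rw [h2]⟩

theorem L_zero (s : List ℕ) : L s 0 = [] := by unfold L; rw [st_zero]
theorem a_zero (s : List ℕ) : a s 0 = encode s + 1 := by unfold a; rw [st_zero]

theorem inv (s : List ℕ) (t : ℕ) : (∀ x ∈ L s t, encode s + 1 ≤ x ∧ x < a s t ∧ x < t) ∧
    encode s + 1 ≤ a s t ∧ a s t ≤ max (encode s + 1) t := by
  induction t with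
  | zero =>
    rw [L_zero, a_zero]
    exact ⟨fun x hx => absurd hx (List.not_mem_nil), le_rfl, le_max_left _ _⟩
  | succ t ih =>
    obtain ⟨ih1, ih2, ih3⟩ := ih
    rcases step s t with ⟨r, h1, h2, h3, h4⟩ | ⟨h1, h2, h3⟩
    · have hra : a s t ≤ r := h2.1
      rw [h3, h4]
      refine ⟨fun x hx => ?_, by omega, le_max_right _ _⟩
      rcases List.mem_cons.1 hx with rfl | hx
      · exact ⟨by omega, by omega, by omega⟩
      · obtain ⟨h5, h6, h7⟩ := ih1 x hx
        exact ⟨h5, by omega, by omega⟩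
    · rw [h2, h3]
      refine ⟨fun x hx => ?_, ih2, ih3.trans (max_le_max le_rfl (Nat.le_succ t))⟩
      obtain ⟨h5, h6, h7⟩ := ih1 x hx
      exact ⟨h5, h6, by omega⟩

theorem L_mono (s : List ℕ) {t t' : ℕ} (h : t ≤ t') : ∀ x ∈ L s t, x ∈ L s t' := by
  induction t', h using Nat.le_induction with
  | base => exact fun x hx => hx
  | succ t' _ ih =>
    intro x hx
    rcases step s t' with ⟨r, -, -, h3, -⟩ | ⟨-, h2, -⟩
    · rw [h3]; exact List.mem_cons_of_mem _ (ih x hx)
    · rw [h2]; exact ih x hx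

theorem len_mono (s : List ℕ) {t t' : ℕ} (h : t ≤ t') : (L s t).length ≤ (L s t').length := by
  induction t', h using Nat.le_induction with
  | base => exact le_rfl
  | succ t' _ ih =>
    rcases step s t' with ⟨r, -, -, h3, -⟩ | ⟨-, h2, -⟩
    · rw [h3, List.length_cons]; omega
    · rw [h2]; exact ih

theorem a_mono (s : List ℕ) {t t' : ℕ} (h : t ≤ t') : a s t ≤ a s t' := by
  induction t', h using Nat.le_induction with
  | base => exact le_rfl
  | succ t' _ ih =>
    rcases step s t' with ⟨r, h1, h2, -, h4⟩ | ⟨-, -, h3⟩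
    · have : a s t' ≤ r := h2.1
      omega
    · omega

theorem L_nodup (s : List ℕ) (t : ℕ) : (L s t).Nodup := by
  induction t with
  | zero => rw [L_zero]; exact List.nodup_nil
  | succ t ih =>
    rcases step s t with ⟨r, -, h2, h3, -⟩ | ⟨-, h2, -⟩
    · rw [h3, List.nodup_cons]
      refine ⟨fun h => ?_, ih⟩
      have h5 := ((inv s t).1 r h).2.1
      have h6 : a s t ≤ r := h2.1
      omega
    · rw [h2]; exact ih

/-- The stage at which a value is added. -/
theorem added {s : List ℕ} {T r : ℕ} (h : r ∈ L s T) : ∃ t < T, r ≤ t ∧ C s t r ∧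
    L s (t + 1) = r :: L s t ∧ a s (t + 1) = t + 1 := by
  induction T with
  | zero => rw [L_zero] at h; exact absurd h (List.not_mem_nil)
  | succ T ih =>
    rcases step s T with ⟨r', h1, h2, h3, h4⟩ | ⟨-, h2, -⟩
    · rw [h3] at h
      rcases List.mem_cons.1 h with rfl | h
      · exact ⟨T, Nat.lt_succ_self T, h1, h2, h3, h4⟩
      · obtain ⟨t, ht, h5⟩ := ih h
        exact ⟨t, by omega, h5⟩
    · rw [h2] at h
      obtain ⟨t, ht, h5⟩ := ih h
      exact ⟨t, by omega, h5⟩

/-- Later values are larger. -/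
theorem late {s : List ℕ} {t T x y : ℕ} (hx : x ∈ L s T) (hx' : x ∉ L s t) (hy : y ∈ L s t) :
    y < x := by
  obtain ⟨t', ht', h1, h2, h3, h4⟩ := added hx
  have h5 : t ≤ t' := by
    by_contra hcon
    exact hx' (L_mono s (show t' + 1 ≤ t by omega) x (by rw [h3]; exact List.mem_cons_self))
  have h6 := ((inv s t').1 y (L_mono s h5 y hy)).2.1
  have h7 : a s t' ≤ x := h2.1
  omega

/-- The values below a value `r` are found by stage `r`. -/
theorem early {s : List ℕ} {T r x : ℕ} (hr : r ∈ L s T) (hx : x ∈ L s T) (hxr : x < r) :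
    x ∈ L s r := by
  by_contra hcon
  obtain ⟨t, ht, h1, h2, h3, h4⟩ := added hr
  have hxt : x ∈ L s t := by
    by_contra h5
    have h6 : x ∉ L s (t + 1) := by
      rw [h3]
      intro h7
      rcases List.mem_cons.1 h7 with h8 | h8
      · omega
      · exact h5 h8
    have := late hx h6 (show r ∈ L s (t + 1) by rw [h3]; exact List.mem_cons_self)
    omega
  obtain ⟨t', ht', h5, h6, h7, h8⟩ := added hxt
  have h9 : r ≤ t' := by
    by_contra hc
    exact hcon (L_mono s (show t' + 1 ≤ r by omega) x (by rw [h7]; exact List.mem_cons_self))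
  have h10 : a s (t' + 1) ≤ a s t := a_mono s ht'
  have h11 : a s t ≤ r := h2.1
  omega

theorem not_mem_self {s : List ℕ} {r : ℕ} : r ∉ L s r := fun h =>
  absurd ((inv s r).1 r h).2.2 (lt_irrefl _)

/-! ### the sets -/

/-- The set of `s`. -/
def XS (s : List ℕ) : Set ℕ := {x | x = encode s ∨ ∃ t, x ∈ L s t}

theorem marker_lt {s : List ℕ} {x t : ℕ} (h : x ∈ L s t) : encode s < x :=
  ((inv s t).1 x h).1

theorem XS_below {s : List ℕ} {r t : ℕ} (hr : r ∈ L s t) {x : ℕ} (hx : x < r) :
    x ∈ XS s ↔ x = encode s ∨ x ∈ L s r := by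
  constructor
  · rintro (h | ⟨t', h⟩)
    · exact Or.inl h
    · refine Or.inr ?_
      exact early (L_mono s (le_max_left t t') r hr) (L_mono s (le_max_right t t') x h) hx
  · rintro (h | h)
    · exact Or.inl h
    · exact Or.inr ⟨r, h⟩

/-- The condition on a set of numbers. -/
def Good (X : ℕ → Prop) (r : ℕ) : Prop :=
  X r → (∀ x, x < r → ¬ X x) ∨
    ∃ m, m < r ∧ ∀ x, x < r → (X x ↔ x = m ∨ x ∈ L (ofNat (List ℕ) m) r)

theorem XS_good (s : List ℕ) (r : ℕ) : Good (· ∈ XS s) r := by
  rintro (rfl | ⟨t, h⟩)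
  · left
    rintro x hx (h | ⟨t, h⟩)
    · omega
    · have := marker_lt h
      omega
  · right
    refine ⟨encode s, marker_lt h, fun x hx => ?_⟩
    rw [ofNat_encode]
    exact XS_below h hx

/-- Infinite sets satisfying the condition everywhere. -/
theorem eq_XS {X : ℕ → Prop} (hX : ∀ r, Good X r) (hinf : ∀ n, ∃ r, n < r ∧ X r) :
    ∃ s : List ℕ, (∀ x, X x ↔ x ∈ XS s) := by
  classical
  have hne : ∃ r, X r := by
    obtain ⟨r, -, h⟩ := hinf 0
    exact ⟨r, h⟩
  set m := Nat.find hne with hm
  have hXm : X m := Nat.find_spec hne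
  have hmin : ∀ x, X x → m ≤ x := fun x hx => Nat.find_min' hne hx
  have key : ∀ r, m < r → X r → ∀ x, x < r → (X x ↔ x = m ∨ x ∈ L (ofNat (List ℕ) m) r) := by
    intro r hr hXr
    rcases hX r hXr with h | ⟨m', h1, h2⟩
    · exact absurd hXm (h m hr)
    · have h3 : X m' := (h2 m' h1).2 (Or.inl rfl)
      have h4 : m = m' := by
        refine le_antisymm (hmin m' h3) ?_
        rcases (h2 m hr).1 hXm with h5 | h5
        · exact h5.ge
        · have := marker_lt h5
          rw [encode_ofNat] at this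
          exact this.le
      rw [h4]; exact h2
  refine ⟨ofNat (List ℕ) m, fun x => ?_⟩
  unfold XS
  rw [encode_ofNat]
  constructor
  · intro hx
    obtain ⟨r, hr, hXr⟩ := hinf (max x m)
    have h1 : x < r := lt_of_le_of_lt (le_max_left _ _) hr
    have h2 : m < r := lt_of_le_of_lt (le_max_right _ _) hr
    rcases (key r h2 hXr x h1).1 hx with h | h
    · exact Or.inl h
    · exact Or.inr ⟨r, h⟩
  · rintro (h | ⟨t, h⟩)
    · rw [h]; exact hXm
    · obtain ⟨r, hr, hXr⟩ := hinf (max (max x m) t)
      have h1 : x < r := by omega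
      have h2 : m < r := by omega
      exact (key r h2 hXr x h1).2 (Or.inr (L_mono _ (show t ≤ r by omega) x h))

/-! ### totality -/

/-- `s` gets infinitely many values. -/
def Inf (s : List ℕ) : Prop := ∀ n, ∃ t, n ≤ (L s t).length

/-- `s` gets exactly `n` values. -/
def Lim (s : List ℕ) (n : ℕ) : Prop := ∃ t₀, ∀ t, t₀ ≤ t → (L s t).length = n

theorem inf_or_lim (s : List ℕ) : Inf s ∨ ∃ n, Lim s n := by
  by_cases h : Inf s
  · exact Or.inl h
  · right
    unfold Inf at h
    push Not at h
    obtain ⟨n, hn⟩ := h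
    classical
    have hb : ∃ k, ∀ t, (L s t).length ≤ k := ⟨n, fun t => (hn t).le⟩
    set k := Nat.find hb with hk
    have hk1 : ∀ t, (L s t).length ≤ k := Nat.find_spec hb
    have hk2 : ∃ t, k ≤ (L s t).length := by
      by_contra hcon
      push Not at hcon
      rcases Nat.eq_zero_or_pos k with h0 | h0
      · have := hcon 0; omega
      · have h1 := Nat.find_min hb (show k - 1 < Nat.find hb by omega)
        apply h1
        intro t
        have := hcon t
        omega
    obtain ⟨t₀, ht₀⟩ := hk2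
    exact ⟨k, t₀, fun t ht => le_antisymm (hk1 t) (ht₀.trans (len_mono s ht))⟩

theorem Inf.not_lim {s : List ℕ} (h : Inf s) (n : ℕ) : ¬ Lim s n := by
  rintro ⟨t₀, ht₀⟩
  obtain ⟨t, ht⟩ := h (n + 1)
  have h1 := ht₀ (max t₀ t) (le_max_left _ _)
  have h2 := len_mono s (le_max_right t₀ t)
  omega

theorem Lim.unique {s : List ℕ} {n m : ℕ} (h : Lim s n) (h' : Lim s m) : n = m := by
  obtain ⟨t₀, ht₀⟩ := h
  obtain ⟨t₁, ht₁⟩ := h'
  rw [← ht₀ (max t₀ t₁) (le_max_left _ _), ht₁ (max t₀ t₁) (le_max_right _ _)]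

/-- There are values above every number. -/
theorem Inf.exists_gt {s : List ℕ} (h : Inf s) (n : ℕ) : ∃ t, ∃ x ∈ L s t, n < x := by
  by_contra hcon
  push Not at hcon
  obtain ⟨t, ht⟩ := h (n + 2)
  have h1 : (L s t).toFinset ⊆ Finset.range (n + 1) := by
    intro x hx
    rw [List.mem_toFinset] at hx
    have := hcon t x hx
    rw [Finset.mem_range]; omega
  have h2 := Finset.card_le_card h1
  rw [List.toFinset_card_of_nodup (L_nodup s t), Finset.card_range] at h2
  omega

/-- `Inf` in terms of additions. -/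
theorem Inf.exists_add {s : List ℕ} (h : Inf s) (t₀ : ℕ) : ∃ t, t₀ ≤ t ∧ ∃ r, C s t r ∧
    r ∈ L s (t + 1) := by
  by_contra hcon
  push Not at hcon
  have hc : ∀ t, t₀ ≤ t → (L s t).length = (L s t₀).length := by
    intro t ht
    induction t, ht using Nat.le_induction with
    | base => rfl
    | succ t ht ih =>
      rcases step s t with ⟨r, -, h2, h3, -⟩ | ⟨-, h2, -⟩
      · exact absurd (show r ∈ L s (t + 1) by rw [h3]; exact List.mem_cons_self) (hcon t ht r h2)
      · rw [h2]; exact ih
  exact h.not_lim _ ⟨t₀, hc⟩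

/-- The string `s` is a correct guess. -/
def Tr (s : List ℕ) : Prop := ∀ j, j < s.length →
  (s.getD j 0 = 0 ∧ Inf (s.take j)) ∨ (s.getD j 0 ≠ 0 ∧ Lim (s.take j) (s.getD j 0 - 1))

theorem Inf.tr {s : List ℕ} (h : Inf s) : Tr s := by
  intro j hj
  by_cases h0 : s.getD j 0 = 0
  · left
    refine ⟨h0, ?_⟩
    rcases inf_or_lim (s.take j) with h1 | ⟨n, t₀, hn⟩
    · exact h1
    · exfalso
      -- the values of `s` are bounded
      have hconst : ∀ t, t₀ ≤ t → ∀ x, x ∈ L (s.take j) t → x ∈ L (s.take j) t₀ := by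
        intro t ht
        induction t, ht using Nat.le_induction with
        | base => exact fun x hx => hx
        | succ t ht ih =>
          intro x hx
          rcases step (s.take j) t with ⟨r, -, -, h3, -⟩ | ⟨-, h2, -⟩
          · have h4 := hn (t + 1) (by omega)
            have h5 := hn t ht
            rw [h3, List.length_cons] at h4
            omega
          · rw [h2] at hx; exact ih x hx
      have hb : ∃ B, ∀ x ∈ L (s.take j) t₀, x ≤ B :=
        ⟨(L (s.take j) t₀).sum, fun x hx => List.single_le_sum (by simp) x hx⟩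
      obtain ⟨B, hB⟩ := hb
      obtain ⟨t, x, hx, hBx⟩ := h.exists_gt (B + t₀)
      obtain ⟨t', -, h1, h2, h3, -⟩ := added hx
      obtain ⟨y, hy, hxy⟩ := ((h2.2.2 j hj).1 h0).1
      have h6 : y ∈ L (s.take j) t₀ := by
        rcases Nat.le_total t₀ t' with h7 | h7
        · exact hconst t' h7 y hy
        · exact L_mono _ h7 y hy
      have := hB y h6
      omega
  · right
    refine ⟨h0, ?_⟩
    obtain ⟨t₀, -, r, h1, -⟩ := h.exists_add 0
    have h2 := (h1.2.2 j hj).2 h0
    have h2' : (L (s.take j) t₀).length + 1 = s.getD j 0 := h2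
    refine ⟨t₀, fun t ht => ?_⟩
    obtain ⟨t', ht', r', h3, -⟩ := h.exists_add t
    have h4 : (L (s.take j) t').length + 1 = s.getD j 0 := (h3.2.2 j hj).2 h0
    have h5 := len_mono (s.take j) ht
    have h6 := len_mono (s.take j) ht'
    omega

theorem Tr.take {s : List ℕ} (h : Tr s) (k : ℕ) : Tr (s.take k) := by
  intro j hj
  rw [List.length_take] at hj
  have hjk : j < k := by omega
  have h1 : (s.take k).getD j 0 = s.getD j 0 := by
    rw [List.getD_eq_getElem?_getD, List.getD_eq_getElem?_getD, List.getElem?_take_of_lt hjk]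
  have h2 : (s.take k).take j = s.take j := by
    rw [List.take_take, min_eq_left hjk.le]
  rw [h1, h2]
  exact h j (by omega)

/-- A correct guess exists for each length. -/
theorem exists_tr (n : ℕ) : ∃ s : List ℕ, s.length = n ∧ Tr s := by
  induction n with
  | zero => exact ⟨[], rfl, fun j hj => absurd hj (Nat.not_lt_zero j)⟩
  | succ n ih =>
    obtain ⟨s, hs, hT⟩ := ih
    have key : ∀ k : ℕ, ((k = 0 ∧ Inf s) ∨ (k ≠ 0 ∧ Lim s (k - 1))) → Tr (s ++ [k]) := by
      intro k hk j hj
      rw [List.length_append, List.length_singleton] at hj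
      rcases Nat.lt_or_ge j s.length with h1 | h1
      · have h2 : (s ++ [k]).getD j 0 = s.getD j 0 := by
          rw [List.getD_eq_getElem?_getD, List.getD_eq_getElem?_getD,
            List.getElem?_append_left h1]
        have h3 : (s ++ [k]).take j = s.take j := by
          rw [List.take_append_of_le_length h1.le]
        rw [h2, h3]
        exact hT j h1
      · have h2 : j = s.length := by omega
        subst h2
        have h3 : (s ++ [k]).getD s.length 0 = k := by
          rw [List.getD_eq_getElem?_getD, List.getElem?_append_right le_rfl]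
          simp
        have h4 : (s ++ [k]).take s.length = s := by
          rw [List.take_append_of_le_length le_rfl, List.take_length]
        rw [h3, h4]
        exact hk
    rcases inf_or_lim s with h | ⟨k, h⟩
    · exact ⟨s ++ [0], by simp [hs], key 0 (Or.inl ⟨rfl, h⟩)⟩
    · exact ⟨s ++ [k + 1], by simp [hs], key (k + 1) (Or.inr ⟨by omega, by simpa using h⟩)⟩

/-- Correct guesses of the same length are equal. -/
theorem tr_unique {n : ℕ} : ∀ {s s' : List ℕ}, s.length = n → s'.length = n → Tr s → Tr s' →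
    s = s' := by
  induction n with
  | zero =>
    intro s s' h h' _ _
    rw [List.length_eq_zero_iff.1 h, List.length_eq_zero_iff.1 h']
  | succ n ih =>
    intro s s' h h' hT hT'
    have h1 : s.take n = s'.take n := ih (by simp [h]) (by simp [h']) (hT.take n) (hT'.take n)
    have h2 : s.getD n 0 = s'.getD n 0 := by
      rcases hT n (by omega) with ⟨h3, h4⟩ | ⟨h3, h4⟩ <;>
        rcases hT' n (by omega) with ⟨h5, h6⟩ | ⟨h5, h6⟩
      · rw [h3, h5]
      · rw [← h1] at h6
        exact absurd h6 (h4.not_lim _)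
      · rw [← h1] at h6
        exact absurd h4 (h6.not_lim _)
      · rw [← h1] at h6
        have := h4.unique h6
        omega
    have h3 : n < s.length := by omega
    have h4 : n < s'.length := by omega
    have h5 : s = s.take n ++ [s.getD n 0] := by
      rw [List.getD_eq_getElem _ _ h3, List.take_concat_get' s n h3, ← h, List.take_length]
    have h6 : s' = s'.take n ++ [s'.getD n 0] := by
      rw [List.getD_eq_getElem _ _ h4, List.take_concat_get' s' n h4, ← h', List.take_length]
    rw [h5, h6, h1, h2]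

/-! ### almost disjointness -/

theorem ad_aux {s s' : List ℕ} (hs : Inf s) (hs' : Inf s') (hlt : s.length < s'.length) :
    ∀ x, x ∈ XS s → x ∈ XS s' → x = encode s ∨ x = encode s' := by
  have h1 : s = s'.take s.length :=
    tr_unique rfl (by simp [hlt.le]) hs.tr (hs'.tr.take _)
  rintro x (hx | ⟨t, hx⟩) hx'
  · exact Or.inl hx
  rcases hx' with hx' | ⟨t', hx'⟩
  · exact Or.inr hx'
  exfalso
  obtain ⟨u, -, -, h2, -, -⟩ := added hx'
  have h3 : s'.getD s.length 0 = 0 := by
    rcases hs'.tr s.length hlt with ⟨h4, -⟩ | ⟨-, h5⟩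
    · exact h4
    · rw [← h1] at h5
      exact absurd h5 (hs.not_lim _)
  obtain ⟨⟨y, hy, hxy⟩, h5⟩ := (h2.2.2 s.length hlt).1 h3
  rw [← h1] at hy h5
  have hyL : y ∈ L s u := hy
  have := late hx h5 hyL
  omega

/-! ### computability -/

theorem L_primrec : Primrec₂ L := Primrec.fst.comp st_primrec

theorem mem_L_primrec : PrimrecPred fun x : (ℕ × ℕ) × ℕ =>
    x.2 ∈ L (ofNat (List ℕ) x.1.1) x.1.2 := by
  have h : PrimrecPred fun x : (ℕ × ℕ) × ℕ =>
      ∃ y ∈ L (ofNat (List ℕ) x.1.1) x.1.2, y = x.2 :=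
    (Primrec.eq (α := ℕ)).exists_mem_list.comp (L_primrec.comp
      ((Primrec.ofNat (List ℕ)).comp (Primrec.fst.comp Primrec.fst))
      (Primrec.snd.comp Primrec.fst)) Primrec.snd
  exact h.of_eq fun x => by simp

/-- The tree. -/
def Tree (σ : List Bool) : Prop := ∀ r, r < σ.length → Good (fun x => σ.getD x false = true) r

theorem tree_primrec : PrimrecPred Tree := by
  unfold Tree Good
  have hg : PrimrecRel fun (x : ℕ) (σ : List Bool) => σ.getD x false = true :=
    Primrec.eq.comp ((Primrec.list_getD false).comp Primrec.snd Primrec.fst) (Primrec.const true)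
  have h1 : PrimrecRel fun (r : ℕ) (σ : List Bool) => ∀ x, x < r → ¬ σ.getD x false = true := by
    have hR : PrimrecRel fun (x : ℕ) (y : ℕ × List Bool) => ¬ y.2.getD x false = true :=
      (hg.comp Primrec.fst (Primrec.snd.comp Primrec.snd)).not
    exact all_lt hR Primrec.fst Primrec.id
  have h2 : PrimrecRel fun (r : ℕ) (σ : List Bool) => ∃ m, m < r ∧ ∀ x, x < r →
      (σ.getD x false = true ↔ x = m ∨ x ∈ L (ofNat (List ℕ) m) r) := by
    have hR : PrimrecRel fun (m : ℕ) (y : ℕ × List Bool) => ∀ x, x < y.1 →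
        (y.2.getD x false = true ↔ x = m ∨ x ∈ L (ofNat (List ℕ) m) y.1) := by
      have hR' : PrimrecRel fun (x : ℕ) (z : ℕ × ℕ × List Bool) =>
          (z.2.2.getD x false = true ↔ x = z.1 ∨ x ∈ L (ofNat (List ℕ) z.1) z.2.1) := by
        have e1 : PrimrecPred fun q : ℕ × ℕ × ℕ × List Bool => q.2.2.2.getD q.1 false = true :=
          hg.comp Primrec.fst (Primrec.snd.comp (Primrec.snd.comp Primrec.snd))
        have e2 : PrimrecPred fun q : ℕ × ℕ × ℕ × List Bool =>
            q.1 = q.2.1 ∨ q.1 ∈ L (ofNat (List ℕ) q.2.1) q.2.2.1 := by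
          refine (Primrec.eq.comp Primrec.fst (Primrec.fst.comp Primrec.snd)).or ?_
          exact mem_L_primrec.comp (f := fun q : ℕ × ℕ × ℕ × List Bool =>
            ((q.2.1, q.2.2.1), q.1)) (((Primrec.fst.comp Primrec.snd).pair
              (Primrec.fst.comp (Primrec.snd.comp Primrec.snd))).pair Primrec.fst)
        exact ((imp_primrec e1 e2).and (imp_primrec e2 e1)).of_eq fun q => by tauto
      exact all_lt hR' (f := fun q : ℕ × ℕ × List Bool => q.2.1) (g := fun q => q)
        (Primrec.fst.comp Primrec.snd) Primrec.id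
    exact ex_lt hR Primrec.fst Primrec.id
  have h3 : PrimrecRel fun (r : ℕ) (σ : List Bool) => σ.getD r false = true →
      (∀ x, x < r → ¬ σ.getD x false = true) ∨ ∃ m, m < r ∧ ∀ x, x < r →
        (σ.getD x false = true ↔ x = m ∨ x ∈ L (ofNat (List ℕ) m) r) :=
    imp_primrec hg (h1.or h2)
  exact all_lt h3 Primrec.list_length Primrec.id

theorem primrec_computablePred {α : Type*} [Primcodable α] {p : α → Prop} (h : PrimrecPred p) :
    ComputablePred p := by
  obtain ⟨inst, h⟩ := h
  exact ⟨inst, h.to_comp⟩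

theorem computable_XS {s : List ℕ} (hs : Inf s) : ∃ X : ℕ → Bool, Computable X ∧
    ∀ x, X x = true ↔ x ∈ XS s := by
  classical
  have hR : PrimrecPred fun q : ℕ × ℕ => ∃ y ∈ L s q.2, q.1 < y := by
    have hlt : PrimrecRel fun (a b : ℕ) => b < a := Primrec.nat_lt.swap
    exact hlt.exists_mem_list.comp (L_primrec.comp (Primrec.const s) Primrec.snd) Primrec.fst
  obtain ⟨inst, hR⟩ := hR
  set b : ℕ → ℕ → Bool := fun x t => @decide _ (inst (x, t)) with hb
  have hbc : Computable₂ b := hR.to_comp
  have hbt : ∀ x t, b x t = true ↔ ∃ y ∈ L s t, x < y := fun x t => by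
    rw [hb]
    exact @decide_eq_true_iff _ (inst (x, t))
  have hp : Partrec fun x : ℕ => Nat.rfind (fun t => (Part.some (b x t) : Part Bool)) :=
    Partrec.rfind hbc.partrec₂
  have hdom : ∀ x : ℕ, (Nat.rfind (fun t => (Part.some (b x t) : Part Bool))).Dom := by
    intro x
    obtain ⟨t, h⟩ := hs.exists_gt x
    exact (Nat.rfind_dom' (p := fun t => (Part.some (b x t) : Part Bool))).2
      ⟨t, by rw [Part.mem_some_iff]; exact ((hbt x t).2 h).symm, fun _ => trivial⟩
  set τ : ℕ → ℕ := fun x => (Nat.rfind (fun t => (Part.some (b x t) : Part Bool))).get (hdom x)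
    with hτ
  have hτc : Computable τ := by
    refine Partrec.of_eq hp fun x => ?_
    exact (Part.some_get _).symm
  have hτs : ∀ x, ∃ y ∈ L s (τ x), x < y := by
    intro x
    have h1 := (Nat.mem_rfind.1 (Part.get_mem (hdom x))).1
    rw [Part.mem_some_iff] at h1
    exact (hbt x _).1 h1.symm
  have hmem : PrimrecPred fun q : ℕ × ℕ => q.1 = encode s ∨ q.1 ∈ L s q.2 := by
    refine (Primrec.eq.comp Primrec.fst (Primrec.const _)).or ?_
    have h : PrimrecPred fun q : ℕ × ℕ => ∃ y ∈ L s q.2, y = q.1 :=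
      (Primrec.eq (α := ℕ)).exists_mem_list.comp (L_primrec.comp (Primrec.const s) Primrec.snd)
        Primrec.fst
    exact h.of_eq fun x => by simp
  obtain ⟨inst2, hmem⟩ := hmem
  refine ⟨fun x => decide (x = encode s ∨ x ∈ L s (τ x)), ?_, fun x => ?_⟩
  · refine (hmem.to_comp.comp (Computable.id.pair hτc)).of_eq fun x => ?_
    show decide _ = decide _
    congr
  · rw [decide_eq_true_iff]
    constructor
    · rintro (h | h)
      · exact Or.inl h
      · exact Or.inr ⟨_, h⟩
    · rintro (h | ⟨t, h⟩)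
      · exact Or.inl h
      · right
        by_contra hcon
        obtain ⟨y, hy, hxy⟩ := hτs x
        have := late h hcon hy
        omega

end Pool.Agent.Q205.MAD
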